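import Pool.Agent.H19CI.E

/-!
# Two normic forms of coprime degrees make a `C_i` field strongly `C_i`

Lang (1952) showed the property `(*)_i` for systems of forms of arbitrary degrees over a `C_i`
field which has normic forms of order `i` of every degree.  Two normic forms of order `i`, of
coprime degrees at least `2`, are already enough.
-/

set_option autoImplicit false

namespace Pool.Agent.Results.MP_76ffd5_al.CoprimeNormic

/-- Let `K` be a `C_i` field which is not algebraically closed.  Suppose that there are coprime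
`a, b ≥ 2` and forms of degree `a` in `a ^ i` variables and of degree `b` in `b ^ i` variables
over `K` which have only the trivial zero.  Then `K` has the property `(*)_i`: any forms
`f_1, …, f_r` of degrees `d_1, …, d_r > 0` in `n > ∑ d_j ^ i` variables over `K` have a common
nontrivial zero in `K ^ n`. -/
theorem result (K : Type) [Field K] (i : ℕ)
    (hK : ∀ (n d : ℕ) (f : MvPolynomial (Fin n) K), 0 < d → f.IsHomogeneous d → d ^ i < n →
      ∃ x : Fin n → K, x ≠ 0 ∧ MvPolynomial.eval x f = 0)
    (halg : ¬ IsAlgClosed K) (a b : ℕ) (ha : 2 ≤ a) (hb : 2 ≤ b) (hab : Nat.Coprime a b)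
    (A : MvPolynomial (Fin (a ^ i)) K) (hA : A.IsHomogeneous a)
    (hA0 : ∀ y, MvPolynomial.eval y A = 0 → y = 0)
    (B : MvPolynomial (Fin (b ^ i)) K) (hB : B.IsHomogeneous b)
    (hB0 : ∀ y, MvPolynomial.eval y B = 0 → y = 0)
    (n r : ℕ) (d : Fin r → ℕ) (hd : ∀ j, 0 < d j) (f : Fin r → MvPolynomial (Fin n) K)
    (hf : ∀ j, (f j).IsHomogeneous (d j)) (hn : ∑ j, d j ^ i < n) :
    ∃ x : Fin n → K, x ≠ 0 ∧ ∀ j, MvPolynomial.eval x (f j) = 0 :=
  H19CI.strongly (i := i) hK halg ha hb hab ⟨A, hA, hA0⟩ ⟨B, hB, hB0⟩ f d hd hf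
    (by rw [Fintype.card_fin]; exact hn)

end Pool.Agent.Results.MP_76ffd5_al.CoprimeNormic
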