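import Pool.Agent.H19CI.D

/-!
# Systems of forms of different degrees over a `C_i` field

Nagata's theorem treats systems of forms of the same degree over a `C_i` field.  Here the degrees
`d_1, …, d_r` are arbitrary.  Let `D` be a common multiple of them, and suppose that `K` has an
anisotropic form of degree `(D / d_j) ^ k_j` in `m_j` variables for all `j`.  Then more than
`∑ D ^ i / m_j ^ (1 / k_j)` variables suffice.  When `m_j = (D / d_j) ^ (i k_j)`, or only
asymptotically so, this is the number `∑ d_j ^ i` of the strong `C_i` property.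
-/

set_option autoImplicit false

namespace Pool.Agent.Results.MP_76ffd5_al.DifferentDegrees

/-- Let `K` be a `C_i` field which is not algebraically closed, `f_1, …, f_r` forms of degrees
`d_1, …, d_r` in `n` variables over `K` and `D > 0` a common multiple of the `d_j`.  For each `j`
let `N_j` be a form of degree `(D / d_j) ^ k_j`, `k_j > 0`, in `m_j` variables over `K` which has
only the trivial zero, and `γ_j ≥ 1` a real number with `γ_j ^ k_j ≤ m_j`.  If
`∑ D ^ i / γ_j < n`, then the `f_j` have a common nontrivial zero in `K ^ n`. -/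
theorem result (K : Type) [Field K] (i : ℕ)
    (hK : ∀ (n d : ℕ) (f : MvPolynomial (Fin n) K), 0 < d → f.IsHomogeneous d → d ^ i < n →
      ∃ x : Fin n → K, x ≠ 0 ∧ MvPolynomial.eval x f = 0)
    (halg : ¬ IsAlgClosed K) (n r : ℕ) (d : Fin r → ℕ) (f : Fin r → MvPolynomial (Fin n) K)
    (hf : ∀ j, (f j).IsHomogeneous (d j)) (D : ℕ) (hD : 0 < D) (hdD : ∀ j, d j ∣ D)
    (k m : Fin r → ℕ) (hk : ∀ j, 0 < k j) (N : ∀ j, MvPolynomial (Fin (m j)) K)
    (hN : ∀ j, (N j).IsHomogeneous ((D / d j) ^ k j) ∧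
      ∀ y, MvPolynomial.eval y (N j) = 0 → y = 0)
    (γ : Fin r → ℝ) (hγ : ∀ j, 1 ≤ γ j ∧ γ j ^ k j ≤ m j)
    (hn : ∑ j, (D : ℝ) ^ i / γ j < n) :
    ∃ x : Fin n → K, x ≠ 0 ∧ ∀ j, MvPolynomial.eval x (f j) = 0 :=
  H19CI.system_growth (i := i) hK halg f d hf D hD (fun j => D / d j) k m
    (fun j => Nat.div_mul_cancel (hdD j)) hk γ (fun j => (hγ j).1)
    (fun j => ⟨N j, (hN j).1, (hN j).2⟩) (fun j => (hγ j).2)
    (by rw [Fintype.card_fin]; exact hn)

end Pool.Agent.Results.MP_76ffd5_al.DifferentDegrees
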